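import Pool.Agent.Lib.MP_b9e19b_mp.Small.Spec

set_option autoImplicit false

/-!
# The set of real matrices with purely imaginary spectrum is closed
-/

open Module

namespace RelEqN.Small.ClosedM

lemma prod_ge (s : Multiset ℂ) (z : ℂ) (h : ∀ w ∈ s, w.re = 0) :
    |z.re| ^ (Multiset.card s) ≤ (s.map fun w => ‖z - w‖).prod := by
  induction s using Multiset.induction_on with
  | empty => simp
  | cons a s ih =>
    rw [Multiset.card_cons, Multiset.map_cons, Multiset.prod_cons, pow_succ']
    have h1 : |z.re| ≤ ‖z - a‖ := by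
      have h2 := Complex.abs_re_le_norm (z - a)
      rwa [Complex.sub_re, h a (Multiset.mem_cons_self a s), sub_zero] at h2
    exact mul_le_mul h1 (ih fun w hw => h w (Multiset.mem_cons_of_mem hw))
      (pow_nonneg (abs_nonneg _) _) (norm_nonneg _)

lemma iff_le {n : ℕ} (M : Matrix (Fin n) (Fin n) ℝ) :
    (∀ z : ℂ, (M.charpoly.map (algebraMap ℝ ℂ)).IsRoot z → z.re = 0) ↔
      ∀ z : ℂ, |z.re| ^ n ≤ ‖(M.charpoly.map (algebraMap ℝ ℂ)).eval z‖ := by
  have hmonic : (M.charpoly.map (algebraMap ℝ ℂ)).Monic := M.charpoly_monic.map _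
  have hdeg : (M.charpoly.map (algebraMap ℝ ℂ)).natDegree = n := by
    rw [M.charpoly_monic.natDegree_map, Matrix.charpoly_natDegree_eq_dim, Fintype.card_fin]
  have hsplit : (M.charpoly.map (algebraMap ℝ ℂ)).Splits := IsAlgClosed.splits _
  have hcard : Multiset.card (M.charpoly.map (algebraMap ℝ ℂ)).roots = n := by
    exact hsplit.natDegree_eq_card_roots.symm.trans hdeg
  constructor
  · intro h z
    have h1 : (M.charpoly.map (algebraMap ℝ ℂ)).eval z
        = ((M.charpoly.map (algebraMap ℝ ℂ)).roots.map fun w => z - w).prod := by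
      rw [hsplit.eval_eq_prod_roots, hmonic.leadingCoeff, one_mul]
    have h2 : ‖(M.charpoly.map (algebraMap ℝ ℂ)).eval z‖
        = ((M.charpoly.map (algebraMap ℝ ℂ)).roots.map fun w => ‖z - w‖).prod := by
      rw [h1, ← coe_nnnorm, ← nnnormHom_apply, map_multiset_prod, Multiset.map_map]
      rw [NNReal.coe_multiset_prod, Multiset.map_map]
      rfl
    rw [h2]
    have h3 := prod_ge (M.charpoly.map (algebraMap ℝ ℂ)).roots z fun w hw =>
      h w (Polynomial.isRoot_of_mem_roots hw)
    rwa [hcard] at h3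
  · intro h z hz
    have h1 := h z
    rw [hz.eq_zero, norm_zero] at h1
    have h2 : |z.re| ^ n = 0 := le_antisymm h1 (pow_nonneg (abs_nonneg _) _)
    exact abs_eq_zero.1 (eq_zero_of_pow_eq_zero h2)

lemma eval_cont {n : ℕ} (z : ℂ) :
    Continuous fun M : Matrix (Fin n) (Fin n) ℝ => (M.charpoly.map (algebraMap ℝ ℂ)).eval z := by
  have h1 : ∀ M : Matrix (Fin n) (Fin n) ℝ, (M.charpoly.map (algebraMap ℝ ℂ)).eval z
      = (Matrix.scalar (Fin n) z - M.map (algebraMap ℝ ℂ)).det := by
    intro M
    rw [← Matrix.charpoly_map, Matrix.eval_charpoly]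
  simp only [h1]
  refine Continuous.matrix_det (continuous_const.sub ?_)
  exact continuous_id.matrix_map Complex.continuous_ofReal

end RelEqN.Small.ClosedM

namespace RelEqN.Small.Spec

/-- The set of real matrices with purely imaginary spectrum is closed. -/
theorem stmtClosed : StmtClosed := by
  intro n
  have h1 : {M : Matrix (Fin n) (Fin n) ℝ |
      ∀ z : ℂ, (M.charpoly.map (algebraMap ℝ ℂ)).IsRoot z → z.re = 0}
      = ⋂ z : ℂ, {M : Matrix (Fin n) (Fin n) ℝ |
        |z.re| ^ n ≤ ‖(M.charpoly.map (algebraMap ℝ ℂ)).eval z‖} := by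
    ext M
    rw [Set.mem_ofPred_eq, ClosedM.iff_le, Set.mem_iInter]
    rfl
  rw [h1]
  refine isClosed_iInter fun z => ?_
  exact isClosed_le continuous_const (ClosedM.eval_cont z).norm

end RelEqN.Small.Spec
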