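import Pool.Agent.Lib.MP_b9e19b_mp.Small.Spec

set_option autoImplicit false

/-!
# Compactness near equal masses
-/

open Module

namespace RelEqN.Small.CompactM

variable {N : ℕ}

/-- the compact set of masses and positions -/
def K0 (N : ℕ) (c δ R : ℝ) : Set ((Fin N → ℝ) × (Fin N → ℂ)) :=
  {p | (∀ j, c / 2 ≤ p.1 j ∧ p.1 j ≤ 2 * c) ∧ (∀ j, ‖p.2 j‖ ≤ R) ∧
    ∀ j k, k ≠ j → δ ≤ ‖p.2 k - p.2 j‖}

theorem c1 (j : Fin N) : Continuous fun p : (Fin N → ℝ) × (Fin N → ℂ) => p.1 j :=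
  (continuous_apply j).comp continuous_fst

theorem c2 (j : Fin N) : Continuous fun p : (Fin N → ℝ) × (Fin N → ℂ) => p.2 j :=
  (continuous_apply j).comp continuous_snd

theorem c3 (j k : Fin N) : Continuous fun p : (Fin N → ℝ) × (Fin N → ℂ) => p.2 k - p.2 j :=
  (c2 k).sub (c2 j)

theorem isClosed_K0 (c δ R : ℝ) : IsClosed (K0 N c δ R) := by
  have e : K0 N c δ R = (⋂ j, {p | c / 2 ≤ p.1 j ∧ p.1 j ≤ 2 * c}) ∩ ((⋂ j, {p | ‖p.2 j‖ ≤ R}) ∩
      ⋂ j, ⋂ k, ⋂ (_ : k ≠ j), {p | δ ≤ ‖p.2 k - p.2 j‖}) := by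
    ext p
    simp [K0]
  rw [e]
  refine IsClosed.inter ?_ (IsClosed.inter ?_ ?_)
  · refine isClosed_iInter fun j => ?_
    exact (isClosed_le continuous_const (c1 j)).inter (isClosed_le (c1 j) continuous_const)
  · refine isClosed_iInter fun j => ?_
    exact isClosed_le (c2 j).norm continuous_const
  · refine isClosed_iInter fun j => ?_
    refine isClosed_iInter fun k => ?_
    refine isClosed_iInter fun _ => ?_
    exact isClosed_le continuous_const (c3 j k).norm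

theorem isCompact_K0 (c δ R : ℝ) : IsCompact (K0 N c δ R) := by
  have h1 : IsCompact ((Set.pi Set.univ fun _ : Fin N => Set.Icc (c / 2) (2 * c)) ×ˢ
      (Set.pi Set.univ fun _ : Fin N => Metric.closedBall (0 : ℂ) R)) :=
    (isCompact_univ_pi fun _ => isCompact_Icc).prod
      (isCompact_univ_pi fun _ => isCompact_closedBall _ _)
  refine h1.of_isClosed_subset (isClosed_K0 c δ R) ?_
  rintro p ⟨h2, h3, -⟩
  refine ⟨fun j _ => h2 j, fun j _ => ?_⟩
  rw [mem_closedBall_zero_iff]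
  exact h3 j

theorem contOn_inv {c δ R : ℝ} (hδ : 0 < δ) {j k : Fin N} (hkj : k ≠ j) (n : ℕ) :
    ContinuousOn (fun p : (Fin N → ℝ) × (Fin N → ℂ) => (‖p.2 k - p.2 j‖ ^ n)⁻¹) (K0 N c δ R) := by
  refine ContinuousOn.inv₀ (Continuous.continuousOn (by fun_prop)) ?_
  intro p hp
  have h1 := hp.2.2 j k hkj
  exact pow_ne_zero n (by linarith)

theorem contOn_gD {c δ R : ℝ} (hδ : 0 < δ) {j k : Fin N} (hkj : k ≠ j) (h : ℂ) :
    ContinuousOn (fun p : (Fin N → ℝ) × (Fin N → ℂ) => gD (p.2 k - p.2 j) h) (K0 N c δ R) := by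
  have e : (fun p : (Fin N → ℝ) × (Fin N → ℂ) => gD (p.2 k - p.2 j) h) = fun p =>
      (‖p.2 k - p.2 j‖ ^ 3)⁻¹ • h - (3 * (‖p.2 k - p.2 j‖ ^ 5)⁻¹ *
        ((p.2 k - p.2 j).re * h.re + (p.2 k - p.2 j).im * h.im)) • (p.2 k - p.2 j) := by
    funext p
    exact gD_apply _ _
  rw [e]
  have hz := c3 (N := N) j k
  have hA : ContinuousOn (fun p : (Fin N → ℝ) × (Fin N → ℂ) => 3 * (‖p.2 k - p.2 j‖ ^ 5)⁻¹ *
        ((p.2 k - p.2 j).re * h.re + (p.2 k - p.2 j).im * h.im)) (K0 N c δ R) := by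
    refine ContinuousOn.mul (continuousOn_const.mul (contOn_inv hδ hkj 5)) ?_
    exact Continuous.continuousOn (((Complex.continuous_re.comp hz).mul continuous_const).add
      ((Complex.continuous_im.comp hz).mul continuous_const))
  exact ((contOn_inv hδ hkj 3).smul continuousOn_const).sub (hA.smul hz.continuousOn)

theorem contOn_Amap {c δ R : ℝ} (hδ : 0 < δ) (ξ : Fin N → ℂ) :
    ContinuousOn (fun p : (Fin N → ℝ) × (Fin N → ℂ) => Amap p.1 p.2 ξ) (K0 N c δ R) := by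
  refine continuousOn_pi.2 fun j => ?_
  have e : (fun p : (Fin N → ℝ) × (Fin N → ℂ) => Amap p.1 p.2 ξ j) = fun p =>
      ∑ k ∈ Finset.univ.erase j, p.1 k • gD (p.2 k - p.2 j) (ξ k - ξ j) := by
    funext p
    exact Amap_apply _ _ _ _
  rw [e]
  refine continuousOn_finsetSum _ fun k hk => ?_
  exact (c1 k).continuousOn.smul (contOn_gD hδ (Finset.ne_of_mem_erase hk) _)

theorem contOn_accel {c δ R : ℝ} (hδ : 0 < δ) (j : Fin N) :
    ContinuousOn (fun p : (Fin N → ℝ) × (Fin N → ℂ) => accel p.1 p.2 j) (K0 N c δ R) := by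
  have e : (fun p : (Fin N → ℝ) × (Fin N → ℂ) => accel p.1 p.2 j) = fun p =>
      ∑ k ∈ Finset.univ.erase j, (p.1 k * (‖p.2 k - p.2 j‖ ^ 3)⁻¹) • (p.2 k - p.2 j) := by
    funext p
    unfold accel
    refine Finset.sum_congr rfl fun k _ => ?_
    rw [div_eq_mul_inv]
  rw [e]
  refine continuousOn_finsetSum _ fun k hk => ?_
  exact ((c1 k).continuousOn.mul (contOn_inv hδ (Finset.ne_of_mem_erase hk) 3)).smul
    (c3 j k).continuousOn

/-- the linearization for angular velocity `1` -/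
noncomputable def L (m : Fin N → ℝ) (q : Fin N → ℂ) :
    ((Fin N → ℂ) × (Fin N → ℂ)) →ₗ[ℝ] ((Fin N → ℂ) × (Fin N → ℂ)) :=
  blk (Amap m q + ((1 : ℝ) ^ 2) • LinearMap.id) (Jmap N) 1

theorem contOn_mat {c δ R : ℝ} (hδ : 0 < δ) :
    ContinuousOn (fun p : (Fin N → ℝ) × (Fin N → ℂ) =>
      LinearMap.toMatrix (finBasis ℝ ((Fin N → ℂ) × (Fin N → ℂ)))
        (finBasis ℝ ((Fin N → ℂ) × (Fin N → ℂ))) (L p.1 p.2)) (K0 N c δ R) := by
  set b := finBasis ℝ ((Fin N → ℂ) × (Fin N → ℂ)) with hb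
  refine continuousOn_pi.2 fun i => continuousOn_pi.2 fun l => ?_
  have e : (fun p : (Fin N → ℝ) × (Fin N → ℂ) => LinearMap.toMatrix b b (L p.1 p.2) i l) =
      fun p => b.coord i ((b l).2, (Amap p.1 p.2 (b l).1 + ((1 : ℝ) ^ 2) • (b l).1) -
        (2 * 1 : ℝ) • Jmap N (b l).2) := by
    funext p
    rw [LinearMap.toMatrix_apply]
    rfl
  rw [e]
  have hco : Continuous (b.coord i) := LinearMap.continuous_of_finiteDimensional (b.coord i)
  refine hco.comp_continuousOn (ContinuousOn.prodMk continuousOn_const ?_)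
  exact ((contOn_Amap hδ (b l).1).add continuousOn_const).sub continuousOn_const

theorem isRelEq_of_eqn {m : Fin N → ℝ} {q : Fin N → ℂ} (hq : Function.Injective q)
    (h : ∀ j, accel m q j = -q j) : IsRelEq m 1 q := by
  refine ⟨one_ne_zero, hq, ?_⟩
  intro j t
  have hd : ∀ c : ℂ, ∀ t : ℝ, HasDerivAt (fun s : ℝ => Complex.exp (Complex.I * ((1 : ℝ) : ℂ) * s) * c)
      (Complex.exp (Complex.I * ((1 : ℝ) : ℂ) * t) * ((Complex.I * ((1 : ℝ) : ℂ)) * c)) t := by
    intro c t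
    have h2 : HasDerivAt (fun s : ℝ => Complex.I * ((1 : ℝ) : ℂ) * (s : ℂ))
        (Complex.I * ((1 : ℝ) : ℂ)) t := by
      have := (Complex.ofRealCLM.hasDerivAt (x := t)).const_mul (Complex.I * ((1 : ℝ) : ℂ))
      simpa using this
    refine (h2.cexp.mul_const c).congr_deriv ?_
    ring
  have h3 : (deriv fun s : ℝ => Complex.exp (Complex.I * ((1 : ℝ) : ℂ) * s) * q j)
      = fun t : ℝ => Complex.exp (Complex.I * ((1 : ℝ) : ℂ) * t) *
        ((Complex.I * ((1 : ℝ) : ℂ)) * q j) := by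
    funext t
    exact (hd (q j) t).deriv
  rw [h3, (hd ((Complex.I * ((1 : ℝ) : ℂ)) * q j) t).deriv, accel_rot, h j]
  · push_cast
    linear_combination (Complex.exp (Complex.I * 1 * (t : ℂ)) * q j) * Complex.I_sq
  · rw [Complex.norm_exp]
    simp

theorem accel_scale (c t : ℝ) (ht : 0 < t) (htc : t ^ 3 = c) (q : Fin N → ℂ) (j : Fin N) :
    accel (one N) (fun k => (t⁻¹ : ℝ) • q k) j = (t⁻¹ : ℝ) • accel (fun _ => c) q j := by
  unfold accel one
  rw [Finset.smul_sum]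
  refine Finset.sum_congr rfl fun k _ => ?_
  rw [← smul_sub, norm_smul, Real.norm_of_nonneg (inv_nonneg.2 ht.le), smul_smul, smul_smul, ← htc]
  congr 1
  rw [mul_pow]
  by_cases h0 : ‖q k - q j‖ = 0
  · rw [h0]
    simp
  · field_simp

theorem gD_scale (t : ℝ) (ht : 0 < t) (z h : ℂ) :
    gD ((t⁻¹ : ℝ) • z) h = (t ^ 3 : ℝ) • gD z h := by
  rw [gD_apply, gD_apply, norm_smul, Real.norm_of_nonneg (inv_nonneg.2 ht.le)]
  by_cases h0 : z = 0
  · rw [h0]
    simp
  · have hz : ‖z‖ ≠ 0 := norm_ne_zero_iff.2 h0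
    rw [smul_sub, smul_smul, smul_smul, smul_smul, Complex.smul_re, Complex.smul_im, smul_eq_mul,
      smul_eq_mul]
    congr 1
    · congr 1
      field_simp
    · congr 1
      field_simp

theorem Amap_scale (c t : ℝ) (ht : 0 < t) (htc : t ^ 3 = c) (q : Fin N → ℂ) :
    Amap (one N) (fun k => (t⁻¹ : ℝ) • q k) = Amap (fun _ => c) q := by
  apply LinearMap.ext
  intro ξ
  funext j
  rw [Amap_apply, Amap_apply]
  refine Finset.sum_congr rfl fun k _ => ?_
  rw [← smul_sub, gD_scale t ht, one, one_smul, ← htc]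

theorem compact_main (h1 : Spec.StmtOmega) (h2 : Spec.StmtClosed) (N : ℕ) (hN : 2 ≤ N)
    (hno : NoStable N) (c : ℝ) (hc : 0 < c) :
    ∃ U : Set (Fin N → ℝ), IsOpen U ∧ (fun _ => c) ∈ U ∧ (∀ m ∈ U, ∀ j, 0 < m j) ∧
      ∀ m ∈ U, ∀ (ω : ℝ) (q : Fin N → ℂ), IsRelEq m ω q → ¬ SpectrallyStable m ω q := by
  have hN' : (2 : ℝ) ≤ N := by exact_mod_cast hN
  have hN3 : (0 : ℝ) < 2 * N - 3 := by linarith
  set δ : ℝ := min 1 (c / 2 / (2 * N - 3)) with hδ
  have hδ0 : 0 < δ := lt_min one_pos (by positivity)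
  set R : ℝ := N * (2 * c / δ ^ 2) with hR
  set b := finBasis ℝ ((Fin N → ℂ) × (Fin N → ℂ)) with hb
  set Cl := {M : Matrix (Fin (finrank ℝ ((Fin N → ℂ) × (Fin N → ℂ))))
      (Fin (finrank ℝ ((Fin N → ℂ) × (Fin N → ℂ)))) ℝ |
    ∀ z : ℂ, (M.charpoly.map (algebraMap ℝ ℂ)).IsRoot z → z.re = 0} with hCl
  have hClc : IsClosed Cl := h2 _
  set S : Set ((Fin N → ℝ) × (Fin N → ℂ)) := (K0 N c δ R ∩ (fun p => fun j => accel p.1 p.2 j +
      p.2 j) ⁻¹' {0}) ∩ (K0 N c δ R ∩ (fun p => LinearMap.toMatrix b b (L p.1 p.2)) ⁻¹' Cl) with hS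
  have hSc : IsCompact S := by
    refine (isCompact_K0 c δ R).of_isClosed_subset (IsClosed.inter ?_ ?_)
      (fun p hp => hp.1.1)
    · refine ContinuousOn.preimage_isClosed_of_isClosed ?_ (isClosed_K0 c δ R) isClosed_singleton
      exact continuousOn_pi.2 fun j => (contOn_accel hδ0 j).add
        (Continuous.continuousOn (by fun_prop))
    · exact ContinuousOn.preimage_isClosed_of_isClosed (contOn_mat hδ0) (isClosed_K0 c δ R) hClc
  -- spectral stability in terms of the matrix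
  have hstab : ∀ (m : Fin N → ℝ) (q : Fin N → ℂ), Function.Injective q →
      (SpectrallyStable m 1 q ↔ LinearMap.toMatrix b b (L m q) ∈ Cl) := by
    intro m q hq
    rw [hCl, Set.mem_ofPred_eq, LinearMap.charpoly_toMatrix, SpectrallyStable,
      linearization_eq m 1 q hq]
    rfl
  have hmem : ∀ (m : Fin N → ℝ) (q : Fin N → ℂ), (∀ j, c / 2 ≤ m j ∧ m j ≤ 2 * c) →
      IsRelEq m 1 q → SpectrallyStable m 1 q → (m, q) ∈ S := by
    intro m q hm hrel hst
    have hq := hrel.2.1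
    have hm0 : ∀ j, 0 < m j := fun j => lt_of_lt_of_le (by linarith) (hm j).1
    have hsep : ∀ j k, k ≠ j → δ ≤ ‖q k - q j‖ := by
      intro j k hkj
      have htr := trace_ineq hN hrel hst
      rw [one_pow, mul_one] at htr
      have hr : 0 < ‖q k - q j‖ := norm_pos_iff.2 (sub_ne_zero.2 fun h => hkj (hq h))
      have hnn : ∀ j k, 0 ≤ m k / ‖q k - q j‖ ^ 3 := fun j k =>
        div_nonneg (hm0 k).le (by positivity)
      have h3 : m k / ‖q k - q j‖ ^ 3 ≤ 2 * N - 3 := by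
        refine le_trans ?_ htr
        refine le_trans ?_ (Finset.single_le_sum (f := fun j => ∑ k ∈ Finset.univ.erase j,
          m k / ‖q k - q j‖ ^ 3) (fun j _ => Finset.sum_nonneg fun k _ => hnn j k)
          (Finset.mem_univ j))
        exact Finset.single_le_sum (f := fun k => m k / ‖q k - q j‖ ^ 3) (fun k _ => hnn j k)
          (Finset.mem_erase.2 ⟨hkj, Finset.mem_univ k⟩)
      rw [div_le_iff₀ (by positivity)] at h3
      have h4 : c / 2 / (2 * N - 3) ≤ ‖q k - q j‖ ^ 3 := by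
        rw [div_le_iff₀ hN3]
        have := (hm k).1
        linarith
      by_contra hlt
      push Not at hlt
      have h5 : ‖q k - q j‖ < 1 := lt_of_lt_of_le hlt (min_le_left _ _)
      have h6 : ‖q k - q j‖ < c / 2 / (2 * N - 3) := lt_of_lt_of_le hlt (min_le_right _ _)
      have h7 : ‖q k - q j‖ ^ 3 ≤ ‖q k - q j‖ := by
        calc ‖q k - q j‖ ^ 3 ≤ ‖q k - q j‖ ^ 1 :=
              pow_le_pow_of_le_one hr.le h5.le (by norm_num)
          _ = ‖q k - q j‖ := pow_one _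
      linarith
    have heq : ∀ j, accel m q j = -q j := by
      intro j
      rw [hrel.eqn]
      simp
    have hbd : ∀ j, ‖q j‖ ≤ R := by
      intro j
      have h3 : ‖q j‖ = ‖accel m q j‖ := by rw [heq, norm_neg]
      rw [h3]
      unfold accel
      refine (norm_sum_le _ _).trans ?_
      have h4 : ∀ k ∈ Finset.univ.erase j, ‖(m k / ‖q k - q j‖ ^ 3) • (q k - q j)‖ ≤
          2 * c / δ ^ 2 := by
        intro k hk
        have hkj := Finset.ne_of_mem_erase hk
        have h5 := hsep j k hkj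
        have hr : 0 < ‖q k - q j‖ := lt_of_lt_of_le hδ0 h5
        rw [norm_smul, Real.norm_of_nonneg (div_nonneg (hm0 k).le (by positivity))]
        have e : m k / ‖q k - q j‖ ^ 3 * ‖q k - q j‖ = m k / ‖q k - q j‖ ^ 2 := by
          field_simp
        rw [e]
        exact div_le_div₀ (by linarith) (hm k).2 (by positivity)
          (pow_le_pow_left₀ hδ0.le h5 2)
      refine (Finset.sum_le_sum h4).trans ?_
      rw [Finset.sum_const, nsmul_eq_mul, hR]
      refine mul_le_mul_of_nonneg_right ?_ (by positivity)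
      have h5 : (Finset.univ.erase j).card ≤ N := by
        refine (Finset.card_le_univ _).trans ?_
        rw [Fintype.card_fin]
      exact_mod_cast h5
    have hK : (m, q) ∈ K0 N c δ R := ⟨hm, hbd, hsep⟩
    refine ⟨⟨hK, ?_⟩, ⟨hK, (hstab m q hq).1 hst⟩⟩
    rw [Set.mem_preimage, Set.mem_singleton_iff]
    funext j
    simp only [Pi.zero_apply]
    rw [heq]
    simp
  have hcK : (fun _ : Fin N => c) ∉ Prod.fst '' S := by
    rintro ⟨⟨m, q⟩, ⟨⟨hK, hac⟩, ⟨-, hCm⟩⟩, hmc⟩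
    simp only at hmc
    subst hmc
    rw [Set.mem_preimage, Set.mem_singleton_iff] at hac
    rw [Set.mem_preimage] at hCm
    simp only at hac hCm
    have hq : Function.Injective q := by
      intro j k hjk
      by_contra hne
      have h3 := hK.2.2 j k (fun h => hne h.symm)
      simp only at h3
      rw [hjk, sub_self, norm_zero] at h3
      linarith
    have heq : ∀ j, accel (fun _ : Fin N => c) q j = -q j := by
      intro j
      have h3 := congrFun hac j
      simp only [Pi.zero_apply] at h3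
      exact eq_neg_of_add_eq_zero_left h3
    obtain ⟨t, ht, htc⟩ : ∃ t : ℝ, 0 < t ∧ t ^ 3 = c := by
      refine ⟨c ^ ((1 : ℝ) / 3), Real.rpow_pos_of_pos hc _, ?_⟩
      rw [← Real.rpow_natCast, ← Real.rpow_mul hc.le]
      norm_num
    set q' : Fin N → ℂ := fun k => (t⁻¹ : ℝ) • q k with hq'
    have hq'i : Function.Injective q' := by
      intro j k hjk
      refine hq ?_
      have h3 : (t⁻¹ : ℝ) • q j = (t⁻¹ : ℝ) • q k := hjk
      exact smul_right_injective ℂ (inv_ne_zero ht.ne') h3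
    have hrel' : IsRelEq (one N) 1 q' := by
      refine isRelEq_of_eqn hq'i fun j => ?_
      rw [hq', accel_scale c t ht htc, heq, smul_neg]
    refine hno 1 q' hrel' ?_
    rw [hstab (one N) q' hq'i]
    have hL : L (one N) q' = L (fun _ => c) q := by
      unfold L
      rw [hq', Amap_scale c t ht htc]
    rw [hL]
    exact hCm
  refine ⟨{m | ∀ j, c / 2 < m j ∧ m j < 2 * c} \ (Prod.fst '' S), ?_, ?_, ?_, ?_⟩
  · refine IsOpen.sdiff ?_ (hSc.image continuous_fst).isClosed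
    rw [Set.ofPred_forall]
    refine isOpen_iInter_of_finite fun j => ?_
    exact (isOpen_lt continuous_const (continuous_apply j)).inter
      (isOpen_lt (continuous_apply j) continuous_const)
  · refine ⟨fun j => ⟨?_, ?_⟩, hcK⟩
    · linarith
    · linarith
  · intro m hm j
    have := (hm.1 j).1
    linarith
  · intro m hm ω q hrel hst
    obtain ⟨q', hrel', hst'⟩ := h1 N m ω q hrel hst
    exact hm.2 ⟨(m, q'), hmem m q' (fun j => ⟨(hm.1 j).1.le, (hm.1 j).2.le⟩) hrel' hst', rfl⟩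

end RelEqN.Small.CompactM

namespace RelEqN.Small.Spec

theorem stmtCompact (h1 : StmtOmega) (h2 : StmtClosed) : StmtCompact := by
  intro N hN hno
  choose! U hU using fun c hc => CompactM.compact_main h1 h2 N hN hno c hc
  refine ⟨⋃ c : {c : ℝ // 0 < c}, U c.1, ?_, ?_, ?_, ?_⟩
  · exact isOpen_iUnion fun c => (hU c.1 c.2).1
  · intro c hc
    exact Set.mem_iUnion.2 ⟨⟨c, hc⟩, (hU c hc).2.1⟩
  · intro m hm
    obtain ⟨c, hm⟩ := Set.mem_iUnion.1 hm
    exact (hU c.1 c.2).2.2.1 m hm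
  · intro m hm
    obtain ⟨c, hm⟩ := Set.mem_iUnion.1 hm
    exact (hU c.1 c.2).2.2.2 m hm

end RelEqN.Small.Spec
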