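import Pool.Agent.Lib.MP_b9e19b_mp.Small.Spec

set_option autoImplicit false

/-!
# Normalisation of the angular velocity
-/

open Module

namespace RelEqN.Small.OmegaM

variable {N : ℕ}

lemma gK_scale (c : ℝ) (hc : 0 < c) (z : ℂ) : gK ((c : ℂ) * z) = (((c ^ 2)⁻¹ : ℝ) : ℂ) * gK z := by
  unfold gK
  rw [norm_mul, Complex.norm_real, Real.norm_eq_abs, abs_of_pos hc, Complex.real_smul,
    Complex.real_smul]
  have hc' : (c : ℂ) ≠ 0 := by exact_mod_cast hc.ne'
  rcases eq_or_ne z 0 with rfl | hz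
  · simp
  have hz' : ((‖z‖ : ℝ) : ℂ) ≠ 0 := by exact_mod_cast (norm_ne_zero_iff.2 hz)
  push_cast
  field_simp

lemma gD_scale (c : ℝ) (hc : 0 < c) (z h : ℂ) :
    gD ((c : ℂ) * z) h = (((c ^ 3)⁻¹ : ℝ) : ℂ) * gD z h := by
  rw [gD_apply, gD_apply]
  rw [norm_mul, Complex.norm_real, Real.norm_eq_abs, abs_of_pos hc]
  simp only [Complex.real_smul, Complex.mul_re, Complex.mul_im, Complex.ofReal_re,
    Complex.ofReal_im, zero_mul, sub_zero, add_zero]
  have hc' : (c : ℂ) ≠ 0 := by exact_mod_cast hc.ne'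
  rcases eq_or_ne z 0 with rfl | hz
  · simp
  have hz' : ((‖z‖ : ℝ) : ℂ) ≠ 0 := by exact_mod_cast (norm_ne_zero_iff.2 hz)
  push_cast
  field_simp

lemma accel_scale (m : Fin N → ℝ) (c : ℝ) (hc : 0 < c) (q : Fin N → ℂ) (j : Fin N) :
    accel m (fun k => (c : ℂ) * q k) j = (((c ^ 2)⁻¹ : ℝ) : ℂ) * accel m q j := by
  rw [accel_eq, accel_eq, Finset.mul_sum]
  refine Finset.sum_congr rfl fun k _ => ?_
  rw [← mul_sub, gK_scale c hc]
  simp only [Complex.real_smul]
  ring

lemma Amap_scale (m : Fin N → ℝ) (c : ℝ) (hc : 0 < c) (q ξ : Fin N → ℂ) :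
    Amap m (fun k => (c : ℂ) * q k) ξ = ((c ^ 3)⁻¹ : ℝ) • Amap m q ξ := by
  funext j
  rw [Pi.smul_apply, Amap_apply, Amap_apply, Complex.real_smul, Finset.mul_sum]
  refine Finset.sum_congr rfl fun k _ => ?_
  rw [← mul_sub, gD_scale c hc]
  simp only [Complex.real_smul]
  ring

/-- Uniform rotation of a central configuration. -/
lemma relEq_of_eqn (m : Fin N → ℝ) (q : Fin N → ℂ) (hq : Function.Injective q)
    (h : ∀ j, accel m q j = -q j) : IsRelEq m 1 q := by
  refine ⟨one_ne_zero, hq, ?_⟩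
  intro j t
  have hd : ∀ c : ℂ, ∀ t : ℝ, HasDerivAt
      (fun s : ℝ => Complex.exp (Complex.I * ((1 : ℝ) : ℂ) * s) * c)
      (Complex.exp (Complex.I * ((1 : ℝ) : ℂ) * t) * (Complex.I * c)) t := by
    intro c t
    have h2 : HasDerivAt (fun s : ℝ => Complex.I * ((1 : ℝ) : ℂ) * (s : ℂ)) (Complex.I) t := by
      have := (Complex.ofRealCLM.hasDerivAt (x := t)).const_mul (Complex.I * ((1 : ℝ) : ℂ))
      simpa using this
    refine (h2.cexp.mul_const c).congr_deriv ?_
    ring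
  have h3 : (deriv fun s : ℝ => Complex.exp (Complex.I * ((1 : ℝ) : ℂ) * s) * q j)
      = fun t : ℝ => Complex.exp (Complex.I * ((1 : ℝ) : ℂ) * t) * (Complex.I * q j) := by
    funext t
    exact (hd (q j) t).deriv
  rw [h3, (hd (Complex.I * q j) t).deriv, accel_rot, h]
  · linear_combination (Complex.exp (Complex.I * ((1 : ℝ) : ℂ) * t) * q j) * Complex.I_sq
  · rw [Complex.norm_exp]
    simp

/-- Roots of the characteristic polynomial of a conjugate of a multiple. -/
lemma root_of_inter {E : Type} [AddCommGroup E] [Module ℝ E] [FiniteDimensional ℝ E]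
    (f g D D' : E →ₗ[ℝ] E) (ω : ℝ) (hD : D' ∘ₗ D = LinearMap.id)
    (h : g ∘ₗ D = D ∘ₗ (ω • f)) (z : ℂ)
    (hz : (f.charpoly.map (algebraMap ℝ ℂ)).IsRoot z) :
    (g.charpoly.map (algebraMap ℝ ℂ)).IsRoot ((ω : ℂ) * z) := by
  rw [← LinearMap.charpoly_baseChange, ← Module.End.hasEigenvalue_iff_isRoot_charpoly] at hz ⊢
  obtain ⟨v, hv⟩ := hz.exists_hasEigenvector
  have hv0 : v ≠ 0 := hv.2
  have hvz : (f.baseChange ℂ) v = z • v := hv.apply_eq_smul
  refine Module.End.hasEigenvalue_of_hasEigenvector (x := (D.baseChange ℂ) v) ?_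
  rw [Module.End.hasEigenvector_iff, Module.End.mem_eigenspace_iff]
  constructor
  · have h1 : (g.baseChange ℂ) ((D.baseChange ℂ) v) = ((g ∘ₗ D).baseChange ℂ) v := by
      rw [LinearMap.baseChange_comp]
      rfl
    have h2 : (D ∘ₗ (ω • f)).baseChange ℂ =
        (ω : ℂ) • ((D.baseChange ℂ) ∘ₗ (f.baseChange ℂ)) := by
      apply TensorProduct.AlgebraTensorModule.ext
      intro a e
      simp only [LinearMap.baseChange_tmul, LinearMap.comp_apply, LinearMap.smul_apply, map_smul,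
        TensorProduct.tmul_smul, TensorProduct.smul_tmul', Complex.real_smul, smul_eq_mul]
    rw [h1, h, h2, LinearMap.smul_apply, LinearMap.comp_apply, hvz, map_smul, smul_smul]
  · intro h0
    apply hv0
    have h1 : (D'.baseChange ℂ) ((D.baseChange ℂ) v) = ((D' ∘ₗ D).baseChange ℂ) v := by
      rw [LinearMap.baseChange_comp]
      rfl
    rw [h0, map_zero, hD, LinearMap.baseChange_id] at h1
    simpa using h1.symm

end RelEqN.Small.OmegaM

namespace RelEqN.Small.Spec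

open RelEqN.Small.OmegaM

theorem stmtOmega : StmtOmega := by
  intro N m ω q h hs
  have hω := h.1
  obtain ⟨c, hc, hc3⟩ : ∃ c : ℝ, 0 < c ∧ c ^ 3 = ω ^ 2 := by
    refine ⟨(ω ^ 2) ^ ((1 : ℝ) / 3), by positivity, ?_⟩
    rw [← Real.rpow_natCast, ← Real.rpow_mul (by positivity)]
    norm_num
  have hcc : (c : ℂ) ≠ 0 := by exact_mod_cast hc.ne'
  refine ⟨fun k => (c : ℂ) * q k, relEq_of_eqn m _ ?_ ?_, ?_⟩
  · intro a b hab
    exact h.2.1 (mul_left_cancel₀ hcc hab)
  · intro j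
    rw [accel_scale m c hc, h.eqn]
    have e : (ω : ℂ) ^ 2 = (c : ℂ) ^ 3 := by exact_mod_cast hc3.symm
    rw [e]
    push_cast
    field_simp
  · have hinj : Function.Injective (fun k => (c : ℂ) * q k) := by
      intro a b hab
      exact h.2.1 (mul_left_cancel₀ hcc hab)
    intro z hz
    unfold SpectrallyStable at hs
    rw [linearization_eq m ω q h.2.1] at hs
    rw [linearization_eq m 1 _ hinj] at hz
    let D : ((Fin N → ℂ) × (Fin N → ℂ)) →ₗ[ℝ] ((Fin N → ℂ) × (Fin N → ℂ)) :=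
      LinearMap.id.prodMap (ω • LinearMap.id)
    let D' : ((Fin N → ℂ) × (Fin N → ℂ)) →ₗ[ℝ] ((Fin N → ℂ) × (Fin N → ℂ)) :=
      LinearMap.id.prodMap (ω⁻¹ • LinearMap.id)
    have hD : D' ∘ₗ D = LinearMap.id := by
      apply LinearMap.ext
      intro p
      apply Prod.ext
      · rfl
      · change ω⁻¹ • (ω • p.2) = p.2
        rw [smul_smul, inv_mul_cancel₀ hω, one_smul]
    have hcomm : (blk (Amap m q + (ω ^ 2) • LinearMap.id) (Jmap N) ω) ∘ₗ D =
        D ∘ₗ (ω • (blk (Amap m (fun k => (c : ℂ) * q k) + ((1 : ℝ) ^ 2) • LinearMap.id)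
          (Jmap N) 1)) := by
      apply LinearMap.ext
      intro p
      apply Prod.ext
      · rfl
      · change (Amap m q p.1 + (ω ^ 2) • p.1) - (2 * ω) • Jmap N (ω • p.2) =
          ω • (ω • ((Amap m (fun k => (c : ℂ) * q k) p.1 + ((1 : ℝ) ^ 2) • p.1) -
            (2 * (1 : ℝ)) • Jmap N p.2))
        rw [Amap_scale m c hc, hc3, map_smul]
        simp only [smul_add, smul_sub, smul_smul]
        have e1 : ω * (ω * (ω ^ 2)⁻¹) = 1 := by field_simp
        have e2 : ω * (ω * (1 : ℝ) ^ 2) = ω ^ 2 := by ring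
        have e3 : ω * (ω * (2 * (1 : ℝ))) = 2 * ω * ω := by ring
        rw [e1, e2, e3, one_smul]
    have h1 := hs _ (root_of_inter _ _ D D' ω hD hcomm z hz)
    rw [Complex.re_ofReal_mul] at h1
    rcases mul_eq_zero.1 h1 with h2 | h2
    · exact absurd h2 hω
    · exact h2

end RelEqN.Small.Spec
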